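import Pool.Agent.Helper61.NW.Goals

/-!
# NW-GR2: groups which are finite-by-`ℤ²` with a nontrivial finite kernel
-/

set_option autoImplicit false

namespace Pool.Agent.Helper71.NW

open Pool.Agent.Helper52.Wq2

universe u

theorem conn_hub {V : Type*} {G : SimpleGraph V} {ι : Type*} {s₀ : Set V} (h0 : Conn G s₀)
    (T : ι → Set V) (hT : ∀ i, Conn G (T i)) (hm : ∀ i, (T i ∩ s₀).Nonempty) :
    Conn G (s₀ ∪ ⋃ i, T i) := by
  obtain ⟨⟨x0, hx0⟩, h0'⟩ := h0
  refine ⟨⟨x0, Or.inl hx0⟩, ?_⟩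
  intro A hA hne hcl
  have k0 : (A ∩ s₀).Nonempty → s₀ ⊆ A := fun hn x hx =>
    (h0' (A ∩ s₀) Set.inter_subset_right hn
      (fun y hy z hz hyz => ⟨hcl y hy.1 z (Or.inl hz) hyz, hz⟩) hx).1
  have kT : ∀ i, (A ∩ T i).Nonempty → T i ⊆ A := fun i hn x hx =>
    ((hT i).2 (A ∩ T i) Set.inter_subset_right hn
      (fun y hy z hz hyz => ⟨hcl y hy.1 z (Or.inr (Set.mem_iUnion.2 ⟨i, hz⟩)) hyz, hz⟩) hx).1
  have hs0 : s₀ ⊆ A := by
    obtain ⟨x, hx⟩ := hne
    rcases hA hx with h | h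
    · exact k0 ⟨x, hx, h⟩
    · obtain ⟨i, hi⟩ := Set.mem_iUnion.1 h
      obtain ⟨y, hy1, hy2⟩ := hm i
      exact k0 ⟨y, kT i ⟨x, hx, hi⟩ hy1, hy2⟩
  rintro x (hx | hx)
  · exact hs0 hx
  · obtain ⟨i, hi⟩ := Set.mem_iUnion.1 hx
    obtain ⟨y, hy1, hy2⟩ := hm i
    exact kT i ⟨y, hs0 hy2, hy1⟩ hi

theorem fz {Γ : Type*} [Group Γ] (σ : Γ → ℤ) (hσ : ∀ a b, σ (a * b) = σ a + σ b) (a : Γ)
    (n : ℤ) : σ (a ^ n) = n * σ a := by
  let φ : Γ →* Multiplicative ℤ :=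
    MonoidHom.mk' (fun g => Multiplicative.ofAdd (σ g)) (by intro a b; rw [hσ]; rfl)
  have h1 := map_zpow φ a n
  have h2 := congrArg Multiplicative.toAdd h1
  have h3 : Multiplicative.toAdd (φ a ^ n) = n * σ a := by
    rw [toAdd_zpow]; rfl
  rw [h3] at h2
  exact h2

/-- A shortest path between two sets. -/
theorem short {Γ : Type*} [Group Γ] {S : Set Γ} (hS : IsGen S) (A B : Set Γ) (hA : (1 : Γ) ∈ A)
    {k : Γ} (hB : k ∈ B) (hAB : ∀ x ∈ A, x ∉ B) :
    ∃ (l : ℕ) (v : ℕ → Γ), 1 ≤ l ∧ v 0 ∈ A ∧ v l ∈ B ∧ (∀ i < l, (cay S).Adj (v i) (v (i + 1))) ∧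
      (∀ i, 1 ≤ i → i ≤ l → v i ∉ A) ∧ (∀ i, i < l → v i ∉ B) := by
  classical
  have hreach : ∀ x : Γ, ∃ (n : ℕ) (v : ℕ → Γ), v 0 ∈ A ∧
      (∀ i < n, (cay S).Adj (v i) (v (i + 1))) ∧ v n = x := by
    intro x
    have hx : x ∈ Subgroup.closure S := by rw [hS.1]; exact Subgroup.mem_top x
    have step : ∀ (y t : Γ), t ∈ S → (∃ (n : ℕ) (v : ℕ → Γ), v 0 ∈ A ∧
        (∀ i < n, (cay S).Adj (v i) (v (i + 1))) ∧ v n = y) →
        ∃ (n : ℕ) (v : ℕ → Γ), v 0 ∈ A ∧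
        (∀ i < n, (cay S).Adj (v i) (v (i + 1))) ∧ v n = y * t := by
      rintro y t ht ⟨n, v, h0, h1, h2⟩
      refine ⟨n + 1, fun i => if i ≤ n then v i else y * t, ?_, ?_, ?_⟩
      · simpa using h0
      · intro i hi
        rcases Nat.lt_succ_iff_lt_or_eq.1 hi with h | h
        · have e1 : i ≤ n := h.le
          have e2 : i + 1 ≤ n := h
          simp only [e1, e2, if_true]
          exact h1 i h
        · subst h
          simp only [le_refl, if_true, Nat.not_succ_le_self, if_false]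
          rw [h2]
          exact cay_adj_mul hS y ht
      · simp
    induction hx using Subgroup.closure_induction_right with
    | one => exact ⟨0, fun _ => 1, hA, fun i hi => absurd hi (Nat.not_lt_zero _), rfl⟩
    | mul_right y _ t ht ih => exact step y t ht ih
    | mul_inv_cancel y _ t ht ih =>
      exact step y t⁻¹ (hS.2.1 t ht) ih
  have hex : ∃ n : ℕ, ∃ v : ℕ → Γ, v 0 ∈ A ∧ (∀ i < n, (cay S).Adj (v i) (v (i + 1))) ∧
      v n ∈ B := by
    obtain ⟨n, v, h0, h1, h2⟩ := hreach k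
    exact ⟨n, v, h0, h1, h2 ▸ hB⟩
  obtain ⟨v, h0, h1, h2⟩ := Nat.find_spec hex
  set l := Nat.find hex with hl
  have hmin : ∀ n < l, ¬ ∃ v : ℕ → Γ, v 0 ∈ A ∧ (∀ i < n, (cay S).Adj (v i) (v (i + 1))) ∧
      v n ∈ B := fun n hn => Nat.find_min hex hn
  have hl1 : 1 ≤ l := by
    by_contra h
    have h3 : l = 0 := by omega
    rw [h3] at h2
    exact hAB _ h0 h2
  refine ⟨l, v, hl1, h0, h2, h1, ?_, ?_⟩
  · intro i hi1 hi2 hA'
    refine hmin (l - i) (by omega) ⟨fun r => v (i + r), by simpa using hA', ?_, ?_⟩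
    · intro r hr
      have := h1 (i + r) (by omega)
      rwa [add_assoc] at this
    · have : i + (l - i) = l := by omega
      show v (i + (l - i)) ∈ B
      rw [this]; exact h2
  · intro i hi hB'
    exact hmin i hi ⟨v, h0, fun r hr => h1 r (by omega), hB'⟩

theorem cay_mul {Γ : Type*} [Group Γ] {S : Set Γ} (hS : IsGen S) (g : Γ) {a b : Γ}
    (h : (cay S).Adj a b) : (cay S).Adj (g * a) (g * b) := by
  rw [cay_adj hS] at h ⊢
  have : (g * a)⁻¹ * (g * b) = a⁻¹ * b := by group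
  rwa [this]

theorem exists_mult (m : ℤ) (hm : 0 < m) (M : ℤ) (hM : m ≤ M) (c0 j : ℤ) :
    ∃ c : ℤ, m ∣ c ∧ (c - c0) / M = j := by
  refine ⟨c0 + M * j + (-(c0 + M * j)) % m, ?_, ?_⟩
  · have h1 := Int.emod_add_mul_ediv (-(c0 + M * j)) m
    exact ⟨-((-(c0 + M * j)) / m), by linarith⟩
  · have h1 := Int.emod_nonneg (-(c0 + M * j)) hm.ne'
    have h2 := Int.emod_lt_of_pos (-(c0 + M * j)) hm
    rw [Int.ediv_eq_iff_of_pos (by omega)]
    constructor
    · linarith [mul_comm j M]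
    · nlinarith

theorem core {Γ : Type u} [Group Γ] {S : Set Γ} (hS : IsGen S) (σ τ : Γ → ℤ)
    (hσ : ∀ a b, σ (a * b) = σ a + σ b) (hτ : ∀ a b, τ (a * b) = τ a + τ b) {s t k : Γ}
    (hs : s ∈ S) (ht : t ∈ S) {Δ : ℤ} (hΔ : Δ ≠ 0) (s1 : σ s = Δ) (s2 : τ s = 0) (t1 : σ t = 0)
    (t2 : τ t = Δ) {m : ℤ} (hm : 0 < m) (cs : ∀ g, g * s ^ m = s ^ m * g)
    (ct : ∀ g, g * t ^ m = t ^ m * g) (hk : k ≠ 1) (k1 : σ k = 0) (k2 : τ k = 0) :
    Mn (StarZ ℕ) (cay S) := by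
  classical
  have cs' : ∀ A : ℤ, m ∣ A → ∀ g, g * s ^ A = s ^ A * g := by
    rintro A ⟨i, rfl⟩ g
    rw [zpow_mul]
    exact (Commute.zpow_right (show Commute g (s ^ m) from cs g) i).eq
  have ct' : ∀ A : ℤ, m ∣ A → ∀ g, g * t ^ A = t ^ A * g := by
    rintro A ⟨i, rfl⟩ g
    rw [zpow_mul]
    exact (Commute.zpow_right (show Commute g (t ^ m) from ct g) i).eq
  -- translations
  have f1 : ∀ A B a b : ℤ, m ∣ B → s ^ A * t ^ B * (s ^ a * t ^ b) = s ^ (A + a) * t ^ (B + b) := by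
    intro A B a b hB
    rw [zpow_add, zpow_add, mul_assoc, ← mul_assoc (t ^ B) (s ^ a), ← ct' B hB (s ^ a)]
    simp only [mul_assoc]
  have f2 : ∀ A B a b : ℤ, m ∣ A → m ∣ B →
      s ^ A * t ^ B * (k * s ^ a * t ^ b) = k * s ^ (A + a) * t ^ (B + b) := by
    intro A B a b hA hB
    have e1 : s ^ A * t ^ B * (k * s ^ a * t ^ b) = s ^ A * t ^ B * k * (s ^ a * t ^ b) := by
      simp only [mul_assoc]
    have e2 : s ^ A * t ^ B * k = k * (s ^ A * t ^ B) := by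
      rw [mul_assoc, ← ct' B hB k, ← mul_assoc, ← cs' A hA k, mul_assoc]
    rw [e1, e2, mul_assoc, f1 A B a b hB, mul_assoc]
  have σF : ∀ a b : ℤ, σ (s ^ a * t ^ b) = Δ * a := by
    intro a b; rw [hσ, fz σ hσ, fz σ hσ, s1, t1]; ring
  have τF : ∀ a b : ℤ, τ (s ^ a * t ^ b) = Δ * b := by
    intro a b; rw [hτ, fz τ hτ, fz τ hτ, s2, t2]; ring
  have σk : ∀ a b : ℤ, σ (k * s ^ a * t ^ b) = Δ * a := by
    intro a b; rw [mul_assoc, hσ, σF, k1]; ring
  have τk : ∀ a b : ℤ, τ (k * s ^ a * t ^ b) = Δ * b := by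
    intro a b; rw [mul_assoc, hτ, τF, k2]; ring
  have canc : ∀ a b : ℤ, Δ * a = Δ * b → a = b := fun a b h => mul_left_cancel₀ hΔ h
  have up : ∀ g : Γ, ∀ b : ℤ, (cay S).Adj (g * t ^ b) (g * t ^ (b + 1)) := by
    intro g b
    have := cay_adj_mul hS (g * t ^ b) ht
    rwa [mul_assoc, ← zpow_add_one] at this
  have rt : ∀ a b : ℤ, m ∣ b → (cay S).Adj (k * s ^ a * t ^ b) (k * s ^ (a + 1) * t ^ b) := by
    intro a b hb
    have := cay_adj_mul hS (k * s ^ a * t ^ b) hs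
    have e : k * s ^ a * t ^ b * s = k * s ^ (a + 1) * t ^ b := by
      rw [mul_assoc (k * s ^ a) (t ^ b) s, ← ct' b hb s, zpow_add_one]
      simp only [mul_assoc]
    rwa [e] at this
  -- the two sets
  let VV : Set Γ := {x | ∃ a b : ℤ, m ∣ a ∧ s ^ a * t ^ b = x}
  let KD : Set Γ := {x | ∃ a b : ℤ, (m ∣ a ∨ m ∣ b) ∧ k * s ^ a * t ^ b = x}
  have hVK : ∀ x ∈ VV, x ∉ KD := by
    rintro x ⟨a, b, ha, rfl⟩ ⟨a', b', hab, h⟩
    have h1 : a' = a := canc _ _ (by rw [← σk a' b', h, σF])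
    have h2 : b' = b := canc _ _ (by rw [← τk a' b', h, τF])
    subst h1; subst h2
    apply hk
    rw [mul_assoc] at h
    exact mul_eq_right.1 h
  have trV : ∀ A B : ℤ, m ∣ A → m ∣ B → ∀ x, s ^ A * t ^ B * x ∈ VV → x ∈ VV := by
    rintro A B hA hB x ⟨a, b, ha, h⟩
    refine ⟨-A + a, -B + b, (dvd_neg.2 hA).add ha, ?_⟩
    rw [← f1 (-A) (-B) a b (dvd_neg.2 hB), h]
    have := f1 (-A) (-B) A B (dvd_neg.2 hB)
    rw [← mul_assoc, this]; simp
  have trK : ∀ A B : ℤ, m ∣ A → m ∣ B → ∀ x, s ^ A * t ^ B * x ∈ KD → x ∈ KD := by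
    rintro A B hA hB x ⟨a, b, hab, h⟩
    refine ⟨-A + a, -B + b, hab.imp (fun h => (dvd_neg.2 hA).add h)
      (fun h => (dvd_neg.2 hB).add h), ?_⟩
    rw [← f2 (-A) (-B) a b (dvd_neg.2 hA) (dvd_neg.2 hB), h]
    have := f1 (-A) (-B) A B (dvd_neg.2 hB)
    rw [← mul_assoc, this]; simp
  obtain ⟨l, v, hl, hv0, hvl, hadj, hvV, hvK⟩ := short hS VV KD
    ⟨0, 0, dvd_zero _, by simp⟩ (k := k) ⟨0, 0, Or.inl (dvd_zero _), by simp⟩ hVK
  obtain ⟨a0, b0, ha0, hv0'⟩ := hv0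
  obtain ⟨a1, c0, hac, hvl'⟩ := hvl
  -- the bound
  obtain ⟨N, hN1, hN⟩ : ∃ N : ℤ, 1 ≤ N ∧ ∀ r r' : ℕ, r ≤ l → r' ≤ l →
      |σ (v r) - σ (v r')| < N ∧ |τ (v r) - τ (v r')| < N := by
    refine ⟨1 + 2 * ∑ r ∈ Finset.range (l + 1), (|σ (v r)| + |τ (v r)|), ?_, ?_⟩
    · have : 0 ≤ ∑ r ∈ Finset.range (l + 1), (|σ (v r)| + |τ (v r)|) :=
        Finset.sum_nonneg fun r _ => by positivity
      omega
    · intro r r' hr hr'
      have key : ∀ r ≤ l, |σ (v r)| + |τ (v r)| ≤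
          ∑ r ∈ Finset.range (l + 1), (|σ (v r)| + |τ (v r)|) := by
        intro r hr
        exact Finset.single_le_sum (f := fun r => |σ (v r)| + |τ (v r)|)
          (fun r _ => by positivity) (Finset.mem_range.2 (by omega))
      have h1 := key r hr
      have h2 := key r' hr'
      have h3 := abs_sub (σ (v r)) (σ (v r'))
      have h4 := abs_sub (τ (v r)) (τ (v r'))
      have h5 := abs_nonneg (σ (v r))
      have h6 := abs_nonneg (τ (v r))
      have h7 := abs_nonneg (σ (v r'))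
      have h8 := abs_nonneg (τ (v r'))
      constructor <;> linarith
  let M : ℤ := m * N
  have hmM : m ≤ M := by nlinarith
  have hNM : N ≤ M := by nlinarith
  have hM0 : 0 < M := by omega
  have hdM : ∀ i : ℤ, m ∣ M * i := fun i => ⟨N * i, by simp only [M]; ring⟩
  choose c hc1 hc2 using fun j => exists_mult m hm M hmM c0 j
  -- the pieces
  let L0 : ℤ → Set Γ := fun j => {x | ∃ a : ℤ, True ∧ k * s ^ a * t ^ (c j) = x}
  let Vt : ℤ → ℤ → Set Γ := fun j i => {x | ∃ b : ℤ, (b - c0) / M = j ∧ k * s ^ (m * i) * t ^ b = x}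
  let Hz : (j : ℤ) → {b : ℤ // m ∣ b ∧ (b - c0) / M = j} → Set Γ := fun j b' =>
    {x | ∃ a : ℤ, True ∧ k * s ^ a * t ^ (b' : ℤ) = x}
  let Pt : ℤ → ℕ → Set Γ := fun j i => {x | ∃ r : ℤ, (1 ≤ r ∧ r ≤ l) ∧
    s ^ (M * i) * t ^ (M * j) * v r.toNat = x}
  let Ct : ℤ → Set Γ := fun j => ((L0 j ∪ ⋃ i, Vt j i) ∪ ⋃ b', Hz j b') ∪ ⋃ i, Pt j i
  let Lf : ℤ → ℕ → Set Γ := fun j i => {x | ∃ b : ℤ, (b - b0) / M = j ∧
    s ^ (M * i + a0) * t ^ b = x}
  have divmono : ∀ x y : ℤ, x ≤ y → x / M ≤ y / M := fun x y h => Int.ediv_le_ediv hM0 h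
  have cVt : ∀ j i, Conn (cay S) (Vt j i) := by
    intro j i
    refine conn_line (fun b => k * s ^ (m * i) * t ^ b) (fun b => (b - c0) / M = j) (c j) (hc2 j)
      ?_ ?_ (fun b _ _ => up _ b)
    · intro x hx h
      have h1 := divmono (c j - c0) (x - c0) (by omega)
      have h2 := divmono (x - c0) (x + 1 - c0) (by omega)
      rw [hc2 j] at h1; rw [h] at h2; omega
    · intro x hx h
      have h1 := divmono (x - c0) (c j - c0) (by omega)
      have h2 := divmono (x - 1 - c0) (x - c0) (by omega)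
      rw [hc2 j] at h1; rw [h] at h2; omega
  have cHz : ∀ b : ℤ, m ∣ b → Conn (cay S) {x | ∃ a : ℤ, True ∧ k * s ^ a * t ^ b = x} := by
    intro b hb
    exact conn_line (fun a => k * s ^ a * t ^ b) (fun _ => True) 0 trivial (fun _ _ _ => trivial)
      (fun _ _ _ => trivial) (fun a _ _ => rt a b hb)
  have cPt : ∀ j i, Conn (cay S) (Pt j i) := by
    intro j i
    refine conn_line (fun r => s ^ (M * i) * t ^ (M * j) * v r.toNat)
      (fun r => 1 ≤ r ∧ r ≤ (l : ℤ)) 1 ⟨le_rfl, by omega⟩ ?_ ?_ ?_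
    · intro x hx h; omega
    · intro x hx h; omega
    · intro x h h'
      have e : (x + 1).toNat = x.toNat + 1 := by omega
      rw [e]
      exact cay_mul hS _ (hadj _ (by omega))
  have cLf : ∀ j i, Conn (cay S) (Lf j i) := by
    intro j i
    refine conn_line (fun b => s ^ (M * i + a0) * t ^ b) (fun b => (b - b0) / M = j) (b0 + M * j)
      ?_ ?_ ?_ (fun b _ _ => up _ b)
    · show (b0 + M * j - b0) / M = j
      rw [add_sub_cancel_left, Int.mul_ediv_cancel_left _ hM0.ne']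
    · intro x hx h
      have h1 := divmono (b0 + M * j - b0) (x - b0) (by omega)
      have h2 := divmono (x - b0) (x + 1 - b0) (by omega)
      rw [add_sub_cancel_left, Int.mul_ediv_cancel_left _ hM0.ne'] at h1
      rw [h] at h2; omega
    · intro x hx h
      have h1 := divmono (x - b0) (b0 + M * j - b0) (by omega)
      have h2 := divmono (x - 1 - b0) (x - b0) (by omega)
      rw [add_sub_cancel_left, Int.mul_ediv_cancel_left _ hM0.ne'] at h1
      rw [h] at h2; omega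
  have endp : ∀ (j : ℤ) (i : ℕ), s ^ (M * i) * t ^ (M * j) * v l =
      k * s ^ (M * i + a1) * t ^ (M * j + c0) := by
    intro j i
    rw [← hvl', f2 _ _ _ _ (hdM _) (hdM _)]
  have endd : ∀ j : ℤ, (M * j + c0 - c0) / M = j := by
    intro j
    rw [add_sub_cancel_right, Int.mul_ediv_cancel_left _ hM0.ne']
  have cCt : ∀ j, Conn (cay S) (Ct j) := by
    intro j
    refine conn_hub (conn_hub (conn_hub (cHz _ (hc1 j)) (Vt j) (cVt j) ?_) (Hz j)
      (fun b' => cHz _ b'.2.1) ?_) (Pt j) (cPt j) ?_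
    · intro i
      exact ⟨k * s ^ (m * i) * t ^ (c j), ⟨c j, hc2 j, rfl⟩, m * i, trivial, rfl⟩
    · intro b'
      refine ⟨k * s ^ (0 : ℤ) * t ^ (b' : ℤ), ⟨0, trivial, rfl⟩, Or.inr ?_⟩
      exact Set.mem_iUnion.2 ⟨0, b', b'.2.2, by rw [mul_zero]⟩
    · intro i
      refine ⟨s ^ (M * i) * t ^ (M * j) * v l, ⟨l, ⟨by omega, le_rfl⟩, by rw [Int.toNat_natCast]⟩,
        ?_⟩
      rw [endp]
      rcases hac with h | h
      · refine Or.inl (Or.inr (Set.mem_iUnion.2 ?_))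
        obtain ⟨q, hq⟩ := (hdM i).add h
        exact ⟨q, M * j + c0, endd j, by rw [hq]⟩
      · refine Or.inr (Set.mem_iUnion.2 ⟨⟨M * j + c0, (hdM j).add h, endd j⟩, ?_⟩)
        exact ⟨M * i + a1, trivial, rfl⟩
  -- description of the centre
  have dCt : ∀ j x, x ∈ Ct j → (∃ a b : ℤ, (m ∣ a ∨ m ∣ b) ∧ (b - c0) / M = j ∧
      k * s ^ a * t ^ b = x) ∨ ∃ (i r : ℕ), 1 ≤ r ∧ r ≤ l ∧
      s ^ (M * i) * t ^ (M * j) * v r = x := by
    rintro j x (((⟨a, -, rfl⟩ | h) | h) | h)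
    · exact Or.inl ⟨a, c j, Or.inr (hc1 j), hc2 j, rfl⟩
    · obtain ⟨i, b, hb, rfl⟩ := Set.mem_iUnion.1 h
      exact Or.inl ⟨m * i, b, Or.inl (dvd_mul_right _ _), hb, rfl⟩
    · obtain ⟨b', a, -, rfl⟩ := Set.mem_iUnion.1 h
      exact Or.inl ⟨a, b', Or.inr b'.2.1, b'.2.2, rfl⟩
    · obtain ⟨i, r, ⟨hr1, hr2⟩, rfl⟩ := Set.mem_iUnion.1 h
      exact Or.inr ⟨i, r.toNat, by omega, by omega, rfl⟩
  have inKD : ∀ (a b : ℤ), (m ∣ a ∨ m ∣ b) → k * s ^ a * t ^ b ∈ KD :=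
    fun a b h => ⟨a, b, h, rfl⟩
  -- a point of the kD part on a path is its end
  have onend : ∀ (j j' : ℤ) (i r : ℕ) (a b : ℤ), (m ∣ a ∨ m ∣ b) → (b - c0) / M = j → r ≤ l →
      s ^ (M * i) * t ^ (M * j') * v r = k * s ^ a * t ^ b → j = j' := by
    intro j j' i r a b hab hb hr h
    have h1 : v r ∈ KD := trK (M * i) (M * j') (hdM _) (hdM _) _ (h ▸ inKD a b hab)
    have h2 : r = l := by
      by_contra hne
      exact hvK r (by omega) h1
    subst h2
    rw [endp] at h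
    have h3 : M * j' + c0 = b := canc _ _ (by rw [← τk (M * i + a1), h, τk])
    rw [← hb, ← h3, endd]
  have onpath : ∀ (j j' : ℤ) (i i' r r' : ℕ), r ≤ l → r' ≤ l →
      s ^ (M * i) * t ^ (M * j) * v r = s ^ (M * i') * t ^ (M * j') * v r' → j = j' := by
    intro j j' i i' r r' hr hr' h
    have h1 : Δ * (M * j) + τ (v r) = Δ * (M * j') + τ (v r') := by
      rw [← τF (M * i) (M * j), ← hτ, h, hτ, τF]
    by_contra hne
    have h2 := (hN r r' hr hr').2
    have h3 : τ (v r) - τ (v r') = Δ * (M * (j' - j)) := by linarith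
    rw [h3, abs_mul, abs_mul, abs_of_pos hM0] at h2
    have h4 : 1 ≤ |Δ| := Int.one_le_abs hΔ
    have h5 : 1 ≤ |j' - j| := Int.one_le_abs (sub_ne_zero.2 (Ne.symm hne))
    have h6 : M * 1 ≤ M * |j' - j| := mul_le_mul_of_nonneg_left h5 hM0.le
    have h7 : 1 * (M * |j' - j|) ≤ |Δ| * (M * |j' - j|) :=
      mul_le_mul_of_nonneg_right h4 (by positivity)
    linarith
  have dCC : ∀ j j' x, x ∈ Ct j → x ∈ Ct j' → j = j' := by
    intro j j' x hx hx'
    rcases dCt j x hx with ⟨a, b, hab, hb, h⟩ | ⟨i, r, hr1, hr2, h⟩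
    · rcases dCt j' x hx' with ⟨a', b', hab', hb', h'⟩ | ⟨i', r', hr1', hr2', h'⟩
      · have h3 : b = b' := canc _ _ (by rw [← τk a, h, ← h', τk])
        rw [← hb, ← hb', h3]
      · exact onend j j' i' r' a b hab hb hr2' (h'.trans h.symm)
    · rcases dCt j' x hx' with ⟨a', b', hab', hb', h'⟩ | ⟨i', r', hr1', hr2', h'⟩
      · exact (onend j' j i r a' b' hab' hb' hr2 (h.trans h'.symm)).symm
      · exact onpath j j' i i' r r' hr2 hr2' (h.trans h'.symm)
  have dLV : ∀ j i x, x ∈ Lf j i → x ∈ VV := by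
    rintro j i x ⟨b, -, rfl⟩
    exact ⟨M * i + a0, b, (hdM _).add ha0, rfl⟩
  have dCL : ∀ j j' i x, x ∈ Ct j → x ∈ Lf j' i → False := by
    intro j j' i x hx hx'
    have hV := dLV j' i x hx'
    rcases dCt j x hx with ⟨a, b, hab, hb, h⟩ | ⟨i', r, hr1, hr2, h⟩
    · exact hVK x hV (h ▸ inKD a b hab)
    · exact hvV r hr1 hr2 (trV (M * i') (M * j) (hdM _) (hdM _) _ (h ▸ hV))
  refine ⟨fun p => p.2.elim (Ct p.1) (fun i => Lf p.1 i), ?_, ?_, ?_⟩
  · rintro ⟨j, _ | i⟩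
    · exact cCt j
    · exact cLf j i
  · rintro ⟨j, _ | i⟩ ⟨j', _ | i'⟩ x hx hx'
    · exact congrArg (fun z => (z, none)) (dCC j j' x hx hx')
    · exact (dCL j j' i' x hx hx').elim
    · exact (dCL j' j i x hx' hx).elim
    · obtain ⟨b, hb, h⟩ := hx
      obtain ⟨b', hb', h'⟩ := hx'
      have h1 : M * (i : ℤ) + a0 = M * (i' : ℤ) + a0 := canc _ _ (by rw [← σF _ b, h, ← h', σF])
      have h2 : b = b' := canc _ _ (by rw [← τF (M * i + a0) b, h, ← h', τF])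
      have h3 : (i : ℤ) = i' := by
        have : M * (i : ℤ) = M * i' := by linarith
        exact mul_left_cancel₀ hM0.ne' this
      have h4 : i = i' := by exact_mod_cast h3
      have hb1 : (b - b0) / M = j := hb
      have hb2 : (b' - b0) / M = j' := hb'
      have h5 : j = j' := by rw [← hb1, ← hb2, h2]
      rw [h4, h5]
  · have key : ∀ v w : ℤ × Option ℕ, ((v.2 = w.2 ∧ w.1 = v.1 + 1) ∨ (v.1 = w.1 ∧ v.2 = none)) →
        v ≠ w → ∃ a ∈ (v.2.elim (Ct v.1) (fun i => Lf v.1 i) : Set Γ),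
          ∃ b ∈ (w.2.elim (Ct w.1) (fun i => Lf w.1 i) : Set Γ), (cay S).Adj a b := by
      have e1 : ∀ j b : ℤ, (b + M * (j + 1) - 1 - b) / M = j := by
        intro j b
        rw [Int.ediv_eq_iff_of_pos hM0]
        constructor <;> nlinarith
      have e2 : ∀ j b : ℤ, (b + M * (j + 1) - 1 + 1 - b) / M = j + 1 := by
        intro j b
        have : b + M * (j + 1) - 1 + 1 - b = M * (j + 1) := by ring
        rw [this, Int.mul_ediv_cancel_left _ hM0.ne']
      rintro ⟨j, o⟩ ⟨j', o'⟩ (⟨h1, h2⟩ | ⟨h1, h2⟩) hne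
      · simp only at h1 h2
        subst h1; subst h2
        rcases o with _ | i
        · refine ⟨k * s ^ (m * 0) * t ^ (c0 + M * (j + 1) - 1), ?_,
            k * s ^ (m * 0) * t ^ (c0 + M * (j + 1) - 1 + 1), ?_, up _ _⟩
          · exact Or.inl (Or.inl (Or.inr (Set.mem_iUnion.2 ⟨0, _, e1 j c0, rfl⟩)))
          · exact Or.inl (Or.inl (Or.inr (Set.mem_iUnion.2 ⟨0, _, e2 j c0, rfl⟩)))
        · exact ⟨s ^ (M * i + a0) * t ^ (b0 + M * (j + 1) - 1), ⟨_, e1 j b0, rfl⟩,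
            s ^ (M * i + a0) * t ^ (b0 + M * (j + 1) - 1 + 1), ⟨_, e2 j b0, rfl⟩, up _ _⟩
      · simp only at h1 h2
        subst h1; subst h2
        rcases o' with _ | i
        · exact absurd rfl hne
        · refine ⟨s ^ (M * i) * t ^ (M * j) * v 1, ?_, s ^ (M * i) * t ^ (M * j) * v 0, ?_,
            (cay_mul hS _ (hadj 0 (by omega))).symm⟩
          · refine Or.inr (Set.mem_iUnion.2 ⟨i, 1, ⟨le_rfl, by omega⟩, rfl⟩)
          · rw [← hv0', f1 _ _ _ _ (hdM _)]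
            refine ⟨M * j + b0, ?_, rfl⟩
            rw [add_sub_cancel_right, Int.mul_ediv_cancel_left _ hM0.ne']
    intro p q hpq
    unfold StarZ at hpq
    rw [SimpleGraph.fromRel_adj] at hpq
    rcases hpq with ⟨hne, h | h⟩
    · exact key p q h hne
    · obtain ⟨a, ha, b, hb, hab⟩ := key q p h hne.symm
      exact ⟨b, hb, a, ha, hab.symm⟩

/-- Every element has a positive central power. -/
theorem central_pow {Γ : Type u} [Group Γ] (h : Γ →* Multiplicative (ℤ × ℤ))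
    (hf : (h.ker : Set Γ).Finite) (x : Γ) : ∃ n : ℕ, 0 < n ∧ ∀ g, g * x ^ n = x ^ n * g := by
  classical
  have : Finite h.ker := hf.to_subtype
  have : Finite (MulAut h.ker) := Finite.of_injective (fun e : MulAut h.ker => (e : h.ker → h.ker))
    (fun a b hab => MulEquiv.ext fun y => congrFun hab y)
  have ho : IsOfFinOrder (MulAut.conjNormal (H := h.ker) x) := isOfFinOrder_of_finite _
  set a := orderOf (MulAut.conjNormal (H := h.ker) x) with ha
  have ha0 : 0 < a := ho.orderOf_pos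
  have hcom : ∀ c : Γ, h c = 1 → c * x ^ a = x ^ a * c := by
    intro c hc
    have h1 : (MulAut.conjNormal (H := h.ker) x) ^ a = 1 := pow_orderOf_eq_one _
    rw [← map_pow] at h1
    have h2 := congrArg (fun e : MulAut h.ker => ((e ⟨c, hc⟩ : h.ker) : Γ)) h1
    simp only [MulAut.conjNormal_apply, MulAut.one_apply] at h2
    have h3 : x ^ a * c = c * x ^ a := by
      rw [mul_inv_eq_iff_eq_mul] at h2
      exact h2
    exact h3.symm
  have hK : 0 < Nat.card h.ker := Nat.card_pos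
  refine ⟨a * Nat.card h.ker, Nat.mul_pos ha0 hK, ?_⟩
  intro g
  have hc : h (g * x ^ a * g⁻¹ * (x ^ a)⁻¹) = 1 := by
    simp only [map_mul, map_inv]
    rw [mul_comm (h g) _]
    group
  set c := g * x ^ a * g⁻¹ * (x ^ a)⁻¹ with hcdef
  have h4 : g * x ^ a * g⁻¹ = c * x ^ a := by rw [hcdef]; group
  have h5 : Commute c (x ^ a) := hcom c hc
  have h6 : c ^ Nat.card h.ker = 1 := by
    have := pow_card_eq_one' (G := h.ker) (x := ⟨c, hc⟩)
    exact congrArg (Subtype.val) this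
  have h7 : g * (x ^ a) ^ Nat.card h.ker * g⁻¹ = (x ^ a) ^ Nat.card h.ker := by
    rw [← conj_pow, h4, h5.mul_pow, h6, one_mul]
  rw [pow_mul]
  rw [mul_inv_eq_iff_eq_mul] at h7
  exact h7

theorem gr2 : Pool.Agent.Helper61.NW.Gr2Stmt.{u} := by
  intro Γ _ h S hsurj hker ⟨k, hk, hk1⟩ hS _
  classical
  let X : Γ → ℤ := fun g => (Multiplicative.toAdd (h g)).1
  let Y : Γ → ℤ := fun g => (Multiplicative.toAdd (h g)).2
  have hX : ∀ a b, X (a * b) = X a + X b := by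
    intro a b; simp only [X, map_mul, toAdd_mul, Prod.fst_add]
  have hY : ∀ a b, Y (a * b) = Y a + Y b := by
    intro a b; simp only [Y, map_mul, toAdd_mul, Prod.snd_add]
  -- a homomorphism that vanishes on the generators vanishes
  have van : ∀ f : Γ → ℤ, (∀ a b, f (a * b) = f a + f b) → (∀ u ∈ S, f u = 0) → ∀ g, f g = 0 := by
    intro f hf hu g
    have hg : g ∈ Subgroup.closure S := by rw [hS.1]; exact Subgroup.mem_top g
    have f1 : f 1 = 0 := by have := hf 1 1; rw [mul_one] at this; linarith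
    induction hg using Subgroup.closure_induction with
    | mem x hx => exact hu x hx
    | one => exact f1
    | mul x y _ _ hx hy => rw [hf, hx, hy, add_zero]
    | inv x _ hx =>
      have := hf x x⁻¹
      rw [mul_inv_cancel, f1, hx] at this; linarith
  obtain ⟨p, hp⟩ := hsurj (Multiplicative.ofAdd (1, 0))
  obtain ⟨q, hq⟩ := hsurj (Multiplicative.ofAdd (0, 1))
  have Xp : X p = 1 := by simp only [X, hp]; rfl
  have Yp : Y p = 0 := by simp only [Y, hp]; rfl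
  have Xq : X q = 0 := by simp only [X, hq]; rfl
  have Yq : Y q = 1 := by simp only [Y, hq]; rfl
  obtain ⟨s, hs, hs0⟩ : ∃ s ∈ S, X s ≠ 0 := by
    by_contra hcon
    push Not at hcon
    have := van X hX hcon p
    omega
  obtain ⟨t, ht, ht0⟩ : ∃ t ∈ S, X s * Y t - Y s * X t ≠ 0 := by
    by_contra hcon
    push Not at hcon
    have := van (fun g => X s * Y g - Y s * X g) (by intro a b; simp only [hX, hY]; ring) hcon q
    simp only [Xq, Yq] at this
    apply hs0; linarith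
  obtain ⟨m1, hm1, c1⟩ := central_pow h hker s
  obtain ⟨m2, hm2, c2⟩ := central_pow h hker t
  refine core hS (fun g => X g * Y t - Y g * X t) (fun g => X s * Y g - Y s * X g)
    (by intro a b; simp only [hX, hY]; ring) (by intro a b; simp only [hX, hY]; ring) hs ht
    (Δ := X s * Y t - Y s * X t) ht0 rfl (by ring) (by ring) rfl
    (m := ((m1 * m2 : ℕ) : ℤ)) (by exact_mod_cast Nat.mul_pos hm1 hm2) ?_ ?_ hk ?_ ?_
  · intro g
    rw [zpow_natCast, pow_mul]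
    exact (Commute.pow_right (show Commute g (s ^ m1) from c1 g) m2).eq
  · intro g
    rw [zpow_natCast, mul_comm m1 m2, pow_mul]
    exact (Commute.pow_right (show Commute g (t ^ m2) from c2 g) m1).eq
  · simp [X, Y, hk1]
  · simp [X, Y, hk1]

end Pool.Agent.Helper71.NW
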