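import Pool.Agent.Helper61.NW.Goals2

/-!
# NW+, DIH: the numbering of the lines
-/

set_option autoImplicit false

namespace Pool.Agent.Helper71.NW

open Pool.Agent.Helper52.Wq2 Pool.Agent.Helper61.NW

universe u

theorem conn_cay {Γ : Type u} [Group Γ] {S : Set Γ} (hS : IsGen S) :
    Conn (cay S) (Set.univ : Set Γ) := by
  refine ⟨⟨1, trivial⟩, ?_⟩
  intro A _ hne hcl x _
  obtain ⟨a, ha⟩ := hne
  have key : ∀ y ∈ Subgroup.closure S, a * y ∈ A := by
    intro y hy
    induction hy using Subgroup.closure_induction_right with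
    | one => rwa [mul_one]
    | mul_right y _ t ht ih =>
      rw [← mul_assoc]
      exact hcl _ ih _ trivial (cay_adj_mul hS _ ht)
    | mul_inv_cancel y _ t ht ih =>
      rw [← mul_assoc]
      exact hcl _ ih _ trivial (cay_adj_mul hS _ (hS.2.1 t ht))
  have h := key (a⁻¹ * x) (by rw [hS.1]; exact Subgroup.mem_top _)
  rwa [mul_inv_cancel_left] at h

theorem lsys_of {Γ : Type u} [Group Γ] {S : Set Γ} (hS : IsGen S) (X : Γ → ℤ) (H : ℤ)
    (hH : 0 < H) (φ : Equiv.Perm Γ) (hφ : ∀ g, X (φ g) = X g + H)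
    (hadj : ∀ g, (cay S).Adj g (φ g)) (hnear : ∀ g, ∀ u ∈ S, |X (g * u) - X g| ≤ H)
    (hfin : {g | 0 ≤ X g ∧ X g < H}.Finite) (m : ℕ) (hm : 0 < m) (c : Γ)
    (hc : ∀ g, c * g = (φ ^ m) g)
    (htr : ∀ g g' : Γ, ∃ (x : Γ) (e k : ℤ), (e = 1 ∨ e = -1) ∧ x * g = (φ ^ k) g' ∧
      ∀ y, x * φ y = (φ ^ e) (x * y)) :
    ∃ G : SimpleGraph (ℤ × Fin (Set.ncard {g | 0 ≤ X g ∧ X g < H})), Lsys _ m G ∧
      Nonempty (cay S ≃g G) := by
  classical
  have hφz : ∀ (k : ℤ) (g : Γ), X ((φ ^ k) g) = X g + k * H := by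
    intro k g
    induction k using Int.induction_on with
    | zero => simp
    | succ i ih =>
      rw [add_comm (i : ℤ) 1, zpow_add, zpow_one, Equiv.Perm.mul_apply, hφ, ih]; ring
    | pred i ih =>
      have h1 : (φ ^ (-(i : ℤ))) g = φ ((φ ^ (-(i : ℤ) - 1)) g) := by
        rw [← Equiv.Perm.mul_apply, ← zpow_one_add]; congr 2; ring
      rw [h1, hφ] at ih
      linarith
  have hadd : ∀ (a b : ℤ) (g : Γ), (φ ^ a) ((φ ^ b) g) = (φ ^ (a + b)) g := by
    intro a b g; rw [zpow_add, Equiv.Perm.mul_apply]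
  have hDf : Finite {g | 0 ≤ X g ∧ X g < H} := hfin.to_subtype
  have eD : {g | 0 ≤ X g ∧ X g < H} ≃ Fin (Set.ncard {g | 0 ≤ X g ∧ X g < H}) :=
    Finite.equivFinOfCardEq (Nat.card_coe_set_eq _)
  set n := Set.ncard {g | 0 ≤ X g ∧ X g < H} with hn
  let d : Fin n → Γ := fun i => (eD.symm i : Γ)
  have hd : ∀ i, 0 ≤ X (d i) ∧ X (d i) < H := fun i => (eD.symm i).2
  let P : Γ → ℤ := fun g => X g / H
  have hPd : ∀ g, 0 ≤ X ((φ ^ (-P g)) g) ∧ X ((φ ^ (-P g)) g) < H := by
    intro g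
    rw [hφz]
    have h1 := Int.emod_nonneg (X g) hH.ne'
    have h2 := Int.emod_lt_of_pos (X g) hH
    have h3 := Int.emod_add_mul_ediv (X g) H
    show 0 ≤ X g + -(X g / H) * H ∧ X g + -(X g / H) * H < H
    constructor <;> nlinarith
  let I : Γ → Fin n := fun g => eD ⟨(φ ^ (-P g)) g, hPd g⟩
  have hdI : ∀ g, d (I g) = (φ ^ (-P g)) g := by
    intro g; simp only [d, I, Equiv.symm_apply_apply]
  have hPp : ∀ (a : ℤ) (i : Fin n), P ((φ ^ a) (d i)) = a := by
    intro a i
    show X ((φ ^ a) (d i)) / H = a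
    rw [hφz, Int.add_mul_ediv_right _ _ hH.ne', Int.ediv_eq_zero_of_lt (hd i).1 (hd i).2, zero_add]
  have hIp : ∀ (a : ℤ) (i : Fin n), I ((φ ^ a) (d i)) = i := by
    intro a i
    have h1 : (φ ^ (-P ((φ ^ a) (d i)))) ((φ ^ a) (d i)) = d i := by
      rw [hPp, hadd, neg_add_cancel, zpow_zero, Equiv.Perm.one_apply]
    have h2 : d (I ((φ ^ a) (d i))) = d i := by rw [hdI, h1]
    exact eD.symm.injective (Subtype.ext h2)
  have hrec : ∀ g, (φ ^ (P g)) (d (I g)) = g := by
    intro g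
    rw [hdI, hadd, add_neg_cancel, zpow_zero, Equiv.Perm.one_apply]
  -- same line
  have hline : ∀ (a : ℤ) (g : Γ), I ((φ ^ a) g) = I g := by
    intro a g
    have h1 : (φ ^ a) g = (φ ^ (a + P g)) (d (I g)) := by
      rw [← hadd, hrec]
    rw [h1, hIp]
  let E : Γ ≃ ℤ × Fin n :=
    { toFun := fun g => (P g, I g)
      invFun := fun p => (φ ^ p.1) (d p.2)
      left_inv := hrec
      right_inv := fun p => Prod.ext (hPp p.1 p.2) (hIp p.1 p.2) }
  let G : SimpleGraph (ℤ × Fin n) := (cay S).comap E.symm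
  have hG : ∀ p q, G.Adj p q ↔ (cay S).Adj ((φ ^ p.1) (d p.2)) ((φ ^ q.1) (d q.2)) :=
    fun p q => Iff.rfl
  let F : cay S ≃g G := { E with
    map_rel_iff' := by
      intro a b
      show (cay S).Adj (E.symm (E a)) (E.symm (E b)) ↔ (cay S).Adj a b
      rw [E.symm_apply_apply, E.symm_apply_apply] }
  have hmul : ∀ (x : Γ) {a b : Γ}, (cay S).Adj a b → (cay S).Adj (x * a) (x * b) := by
    intro x a b h
    rw [cay_adj hS] at h ⊢
    have : (x * a)⁻¹ * (x * b) = a⁻¹ * b := by group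
    rwa [this]
  have hmul' : ∀ (x : Γ) {a b : Γ}, (cay S).Adj (x * a) (x * b) ↔ (cay S).Adj a b := by
    intro x a b
    refine ⟨fun h => ?_, hmul x⟩
    have := hmul x⁻¹ h
    rwa [inv_mul_cancel_left, inv_mul_cancel_left] at this
  refine ⟨G, ?_, ⟨F⟩⟩
  refine ⟨?_, hm, ?_, ?_, ?_, ?_, ?_⟩
  · exact (Fin.pos (I 1))
  · intro a j
    rw [hG]
    have : (φ ^ (a + 1)) (d j) = φ ((φ ^ a) (d j)) := by
      rw [add_comm, zpow_add, zpow_one, Equiv.Perm.mul_apply]
    show (cay S).Adj ((φ ^ a) (d j)) ((φ ^ (a + 1)) (d j))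
    rw [this]
    exact hadj _
  · intro a b i j hab
    rw [hG, cay_adj hS] at hab
    have h1 := hnear ((φ ^ a) (d i)) _ hab
    rw [mul_inv_cancel_left] at h1
    simp only [hφz] at h1
    have h2 := hd i
    have h3 := hd j
    rw [abs_le] at h1 ⊢
    constructor
    · by_contra hcon
      have : a - b ≤ -2 := by omega
      nlinarith
    · by_contra hcon
      have : 2 ≤ a - b := by omega
      nlinarith
  · intro a b i j
    rw [hG, hG]
    have h1 : ∀ (a : ℤ) (i : Fin n), (φ ^ (a + m)) (d i) = c * (φ ^ a) (d i) := by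
      intro a i
      rw [hc, ← zpow_natCast, hadd, add_comm]
    show (cay S).Adj _ _ ↔ (cay S).Adj ((φ ^ (a + m)) (d i)) ((φ ^ (b + m)) (d j))
    rw [h1, h1, hmul']
  · have h1 := (conn_cay hS).image (G' := G) (fun g => F g)
      (fun a _ b _ hab => Or.inr (F.map_rel_iff.2 hab))
    have h2 : (fun g => F g) '' (Set.univ : Set Γ) = Set.univ := by
      rw [Set.image_univ]; exact F.surjective.range_eq
    rwa [h2] at h1
  · intro i j
    obtain ⟨x, e, k, he, hx, hcom⟩ := htr (d i) (d j)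
    have hcomz : ∀ (a : ℤ) (y : Γ), x * (φ ^ a) y = (φ ^ (e * a)) (x * y) := by
      intro a y
      induction a using Int.induction_on with
      | zero => simp
      | succ i ih =>
        rw [add_comm (i : ℤ) 1, zpow_add, zpow_one, Equiv.Perm.mul_apply, hcom, ih, hadd]
        congr 2; ring
      | pred i ih =>
        have h1 : (φ ^ (-(i : ℤ))) y = φ ((φ ^ (-(i : ℤ) - 1)) y) := by
          rw [← Equiv.Perm.mul_apply, ← zpow_one_add]; congr 2; ring
        rw [h1, hcom] at ih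
        have h2 : x * (φ ^ (-(i : ℤ) - 1)) y = (φ ^ (-e)) ((φ ^ e) (x * (φ ^ (-(i : ℤ) - 1)) y)) := by
          rw [hadd, neg_add_cancel, zpow_zero, Equiv.Perm.one_apply]
        rw [h2, ih, hadd]
        congr 2; ring
    have hinj : Function.Injective (fun k : Fin n => I (x * d k)) := by
      intro k k' hkk
      simp only at hkk
      have h1 : x * d k = (φ ^ (P (x * d k) - P (x * d k'))) (x * d k') := by
        rw [← hrec (x * d k'), hadd, ← hkk]
        have h2 : P (x * d k) - P (x * d k') + P (x * d k') = P (x * d k) := by ring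
        conv_lhs => rw [← hrec (x * d k)]
        rw [hPp, h2]
      -- pull back
      set δ := P (x * d k) - P (x * d k') with hδ
      have h3 : x * d k = x * (φ ^ (e * δ)) (d k') := by
        rw [hcomz, ← mul_assoc]
        have : e * e = 1 := by rcases he with h | h <;> rw [h] <;> norm_num
        rw [this, one_mul]; exact h1
      have h4 : d k = (φ ^ (e * δ)) (d k') := mul_left_cancel h3
      have h5 := congrArg I h4
      rw [hline] at h5
      have h6 : ∀ k : Fin n, I (d k) = k := by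
        intro k
        have := hIp 0 k
        rwa [zpow_zero, Equiv.Perm.one_apply] at this
      rwa [h6, h6] at h5
    let τ : Equiv.Perm (Fin n) := Equiv.ofBijective _ (Finite.injective_iff_bijective.1 hinj)
    have hτ : ∀ k, τ k = I (x * d k) := fun k => rfl
    let L : cay S ≃g cay S := { Equiv.mulLeft x with
      map_rel_iff' := by intro a b; exact hmul' x }
    refine ⟨(F.symm.trans L).trans F, τ, e, fun k => P (x * d k), he, ?_, ?_⟩
    · rw [hτ, hx, hIp]
    · intro a k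
      show F (x * (φ ^ a) (d k)) = _
      have h1 : x * (φ ^ a) (d k) = (φ ^ (e * a + P (x * d k))) (d (I (x * d k))) := by
        rw [hcomz, ← hadd, hrec]
      show (P (x * (φ ^ a) (d k)), I (x * (φ ^ a) (d k))) = (e * a + P (x * d k), τ k)
      rw [h1, hPp, hIp, hτ]

end Pool.Agent.Helper71.NW
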