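import Pool.Agent.Helper74.DIH.Goals

/-!
# NW+, DIH, D2: powers and conjugation
-/

set_option autoImplicit false

namespace Pool.Agent.Helper71.NW

open Pool.Agent.Helper52.Wq2 Pool.Agent.Helper61.NW
open scoped Nat

universe u

section

variable {Γ : Type u} [Group Γ] {ε : Γ →* ℤˣ} {h : Γ → ℤ}

theorem sgn (ε : Γ →* ℤˣ) (g : Γ) : ε g = 1 ∨ ε g = -1 := Int.units_eq_one_or _

theorem h_one (D : Dh ε h) : h 1 = 0 := by
  have := D.coc 1 1
  rw [mul_one, map_one, Units.val_one, one_mul] at this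
  linarith

theorem e_inv (g : Γ) : ε g⁻¹ = ε g := by rw [map_inv, Int.units_inv_eq_self]

theorem h_inv (D : Dh ε h) (g : Γ) : h g⁻¹ = -((ε g : ℤ) * h g) := by
  have := D.coc g⁻¹ g
  rw [inv_mul_cancel, h_one D, e_inv] at this
  linarith

theorem e_zpow {w : Γ} (hw : ε w = 1) (j : ℤ) : ε (w ^ j) = 1 := by
  rw [map_zpow, hw, one_zpow]

theorem h_zpow' (D : Dh ε h) {w : Γ} (hw : ε w = 1) (j : ℤ) : h (w ^ j) = j * h w := by
  induction j using Int.induction_on with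
  | zero => simp [h_one D]
  | succ i ih =>
    rw [zpow_add_one, D.coc, ih, e_zpow hw, Units.val_one]; ring
  | pred i ih =>
    rw [zpow_sub_one, D.coc, ih, e_zpow hw, Units.val_one, h_inv D, hw, Units.val_one]; ring

/-- The finite kernel. -/
def KK (D : Dh ε h) : Subgroup Γ where
  carrier := {g | ε g = 1 ∧ h g = 0}
  mul_mem' := by
    rintro a b ⟨h1, h2⟩ ⟨h3, h4⟩
    exact ⟨by rw [map_mul, h1, h3, one_mul], by rw [D.coc, h2, h4, mul_zero, add_zero]⟩
  one_mem' := ⟨map_one ε, h_one D⟩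
  inv_mem' := by
    rintro a ⟨h1, h2⟩
    exact ⟨by rw [e_inv, h1], by rw [h_inv D, h2, mul_zero, neg_zero]⟩

theorem conj_h (D : Dh ε h) (g w : Γ) (hw : ε w = 1) : h (g⁻¹ * w * g) = (ε g : ℤ) * h w := by
  rw [D.coc, D.coc, h_inv D, map_mul, e_inv, hw, mul_one]
  rcases sgn ε g with h1 | h1 <;> rw [h1] <;> simp

theorem conj_e (g w : Γ) (hw : ε w = 1) : ε (g⁻¹ * w * g) = 1 := by
  rw [map_mul, map_mul, e_inv, hw, mul_one]
  rcases sgn ε g with h1 | h1 <;> rw [h1] <;> simp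

theorem KK_normal (D : Dh ε h) : (KK D).Normal := by
  refine ⟨?_⟩
  intro n hn g
  have h1 := conj_e (ε := ε) g⁻¹ n hn.1
  have h2 := conj_h D g⁻¹ n hn.1
  rw [inv_inv] at h1 h2
  exact ⟨h1, by rw [h2, hn.2, mul_zero]⟩

theorem pow_conj (D : Dh ε h) (N : ℕ) (hN : Nat.card (KK D) ≤ N) (x : Γ) (hx : ε x = 1) (g : Γ) :
    g⁻¹ * x ^ (N ! * Nat.card (KK D)) * g = (x ^ (N ! * Nat.card (KK D))) ^ (ε g : ℤ) := by
  classical
  have : (KK D).Normal := KK_normal D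
  have : Finite (KK D) := D.ker.to_subtype
  have hcom : ∀ c : Γ, c ∈ KK D → c * x ^ N ! = x ^ N ! * c := by
    intro c hc
    have h1 : (MulAut.toPerm (KK D) (MulAut.conjNormal x)) ^ (Nat.card (Equiv.Perm (KK D))) = 1 :=
      pow_card_eq_one'
    rw [Nat.card_perm] at h1
    have h2 : (MulAut.toPerm (KK D) (MulAut.conjNormal x)) ^ N ! = 1 := by
      obtain ⟨q, hq⟩ := Nat.factorial_dvd_factorial hN
      rw [hq, pow_mul, h1, one_pow]
    rw [← map_pow, ← map_pow] at h2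
    have h3 := congrArg (fun e : Equiv.Perm (KK D) => ((e ⟨c, hc⟩ : KK D) : Γ)) h2
    have h4 : x ^ N ! * c * (x ^ N !)⁻¹ = c := by
      have h5 : ((MulAut.toPerm (KK D) (MulAut.conjNormal (x ^ N !)) ⟨c, hc⟩ : KK D) : Γ) =
          x ^ N ! * c * (x ^ N !)⁻¹ := MulAut.conjNormal_apply _ _
      rw [← h5]
      exact h3
    rw [mul_inv_eq_iff_eq_mul] at h4
    exact h4.symm
  set w := x ^ N ! with hw
  have hwe : ε w = 1 := by rw [hw, map_pow, hx, one_pow]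
  set k := g⁻¹ * w * g * (w ^ (ε g : ℤ))⁻¹ with hk
  have hkK : k ∈ KK D := by
    constructor
    · rw [hk, map_mul, conj_e g w hwe, one_mul, e_inv, e_zpow hwe]
    · rw [hk, D.coc, conj_h D g w hwe, conj_e g w hwe, h_inv D, e_zpow hwe, h_zpow' D hwe]
      simp
  have h1 : g⁻¹ * w * g = k * w ^ (ε g : ℤ) := by rw [hk]; group
  have h2 : Commute k (w ^ (ε g : ℤ)) := Commute.zpow_right (hcom k hkK) _
  have h3 : k ^ Nat.card (KK D) = 1 := by
    have := pow_card_eq_one' (G := KK D) (x := ⟨k, hkK⟩)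
    exact congrArg Subtype.val this
  have h4 : g⁻¹ * w ^ Nat.card (KK D) * g = (w ^ (ε g : ℤ)) ^ Nat.card (KK D) := by
    have h5 : g⁻¹ * w ^ Nat.card (KK D) * g = (g⁻¹ * w * g) ^ Nat.card (KK D) := by
      have := conj_pow (a := g⁻¹) (b := w) (i := Nat.card (KK D))
      rw [inv_inv] at this
      exact this.symm
    rw [h5, h1, h2.mul_pow, h3, one_mul]
  rw [pow_mul, ← hw, h4, ← zpow_natCast, ← zpow_natCast, ← zpow_mul, ← zpow_mul, mul_comm]

end

theorem d2 : Pool.Agent.Helper74.DIH.D2Stmt.{u} := by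
  intro Γ _ ε h D s hs
  have : Finite (KK D) := D.ker.to_subtype
  have h0 : ({g | ε g = 1 ∧ h g = 0} : Set Γ).ncard = Nat.card (KK D) :=
    (Nat.card_coe_set_eq ((KK D : Subgroup Γ) : Set Γ)).symm
  rw [h0]
  refine ⟨(Nat.card (KK D)) ! * Nat.card (KK D), Nat.mul_pos (Nat.factorial_pos _) Nat.card_pos,
    le_rfl, ?_⟩
  intro g
  have h1 := pow_conj D _ le_rfl s hs g
  rw [← zpow_natCast, ← zpow_mul] at h1
  have h2 : s ^ ((Nat.card (KK D)) ! * Nat.card (KK D)) * g =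
      g * (g⁻¹ * s ^ ((Nat.card (KK D)) ! * Nat.card (KK D)) * g) := by group
  rw [h2, ← zpow_natCast, h1, mul_comm (ε g : ℤ)]

end Pool.Agent.Helper71.NW
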